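import Pool.Agent.W670.ML.Defs

set_option autoImplicit false

/-! ML-EX: every subfield of degree `N` has a transitive group. -/

namespace Pool.Agent.W70.ML

open Pool.Agent.W670.ML

/-- an embedding of a subfield of an algebraic closure extends to an automorphism -/
theorem ext_aut {K Ω : Type} [Field K] [Field Ω] [Algebra K Ω] [IsAlgClosure K Ω]
    (M : IntermediateField K Ω) (φ : ↥M →ₐ[K] Ω) :
    ∃ σ : Ω ≃ₐ[K] Ω, ∀ x : ↥M, σ (x : Ω) = φ x := by
  have h1 : Algebra.IsAlgebraic K Ω := IsAlgClosure.isAlgebraic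
  have h2 : Normal K Ω := IsAlgClosure.normal K Ω
  have hb : Function.Bijective (φ.liftNormal Ω : Ω →ₐ[K] Ω) :=
    Algebra.IsAlgebraic.algHom_bijective _
  refine ⟨AlgEquiv.ofBijective (φ.liftNormal Ω) hb, fun x => ?_⟩
  exact φ.liftNormal_commutes Ω x

theorem exK {K Ω : Type} [Field K] [CharZero K] [Field Ω] [Algebra K Ω] [IsAlgClosure K Ω]
    (N : ℕ) (M : IntermediateField K Ω) (hN : 0 < N) (hM : Module.finrank K M = N) :
    ∃ H : Subgroup (Equiv.Perm (Fin N)), Trans H ∧ HasGroup K Ω N H M := by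
  have hf : FiniteDimensional K M := FiniteDimensional.of_finrank_pos (by omega)
  have hc : IsAlgClosed Ω := IsAlgClosure.isAlgClosed K
  have hcard : Fintype.card (↥M →ₐ[K] Ω) = N := by
    rw [AlgHom.card K M Ω]
    exact hM
  let e : (↥M →ₐ[K] Ω) ≃ Fin N := Fintype.equivFinOfCardEq hcard
  let H : Subgroup (Equiv.Perm (Fin N)) :=
    { carrier := {τ | ∃ σ : Ω ≃ₐ[K] Ω, ∀ φ : ↥M →ₐ[K] Ω, τ (e φ) = e (σ.toAlgHom.comp φ)}
      mul_mem' := by
        rintro τ₁ τ₂ ⟨σ₁, h₁⟩ ⟨σ₂, h₂⟩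
        refine ⟨σ₂.trans σ₁, fun φ => ?_⟩
        rw [Equiv.Perm.mul_apply, h₂, h₁]
        congr 1
      one_mem' := by
        refine ⟨AlgEquiv.refl, fun φ => ?_⟩
        rw [Equiv.Perm.one_apply]
        congr 1
      inv_mem' := by
        rintro τ ⟨σ, h⟩
        refine ⟨σ.symm, fun φ => ?_⟩
        rw [Equiv.Perm.inv_eq_iff_eq, h]
        congr 1
        ext x
        exact (σ.apply_symm_apply (φ x)).symm }
  refine ⟨H, ?_, hM, e, fun τ => Iff.rfl⟩
  intro i j
  obtain ⟨σ₁, h₁⟩ := ext_aut M (e.symm i)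
  obtain ⟨σ₂, h₂⟩ := ext_aut M (e.symm j)
  let σ : Ω ≃ₐ[K] Ω := σ₁.symm.trans σ₂
  let E : Equiv.Perm (↥M →ₐ[K] Ω) :=
    { toFun := fun φ => σ.toAlgHom.comp φ
      invFun := fun φ => σ.symm.toAlgHom.comp φ
      left_inv := fun φ => by
        ext x
        exact σ.symm_apply_apply (φ x)
      right_inv := fun φ => by
        ext x
        exact σ.apply_symm_apply (φ x) }
  refine ⟨(e.symm.trans E).trans e, ⟨σ, fun φ => ?_⟩, ?_⟩
  · show e (E (e.symm (e φ))) = _
    rw [e.symm_apply_apply]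
    rfl
  · show e (E (e.symm i)) = j
    have hE : E (e.symm i) = e.symm j := by
      ext x
      show σ₂ (σ₁.symm ((e.symm i) x)) = (e.symm j) x
      rw [← h₁ x, σ₁.symm_apply_apply, h₂ x]
    rw [hE, e.apply_symm_apply]

theorem ex : S_EX := by
  intro Ω _ _ _ N M hN hM
  refine exK N M hN ?_
  convert hM

end Pool.Agent.W70.ML
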